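import Pool.Agent.H.MP_58d537_lc.A20Q.Chain

/-!
# Moments along a chain of partial averages, general coefficients
-/

set_option autoImplicit false

open Finset

namespace Pool.Agent.H.MP_58d537_lc

noncomputable section

variable {N : ℕ}

/-- **Moments along a chain.** -/
theorem chain_moment' {ι : Type*} (J : Finset ι) (w : ι → (Fin N → Bool) → ℝ)
    (hw : ∀ j ∈ J, ∀ x, 0 ≤ w j x) {k : ℝ} (hk0 : 0 ≤ k) (hk : ∀ x, ∑ j ∈ J, w j x ≤ k)
    (p : ℕ) (rk : Fin N → ℕ) (L : Finset (Fin N)) (n : ℕ) (hn : ∀ i, rk i < n)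
    {τ : ℝ} (hτ0 : 0 < τ) (hτ : ∀ j ∈ J, avg (w j) ≤ τ)
    (T : Finset ℕ) (cf : ℕ → ℝ) (hcf : ∀ s ∈ T, 0 ≤ cf s) (m : ℕ → ℕ → (Fin N → Bool) → ℝ)
    (hm : ∀ c s x, 0 ≤ m c s x) (ν : ℕ → ℝ) (hν : ∀ s ∈ T, 0 < ν s)
    (hmν : ∀ c < n, ∀ s ∈ T, avg (fun x => m c s x ^ (2 * p + 2)) ≤ ν s ^ (2 * p + 2))
    (hdiff : ∀ c < n, ∀ j ∈ J, ∀ x,
      ∑ i ∈ univ.filter (fun i => rk i = c),
        (max (pav (L ∪ univ.filter (fun i => rk i < c)) (w j) x -
          pav (L ∪ univ.filter (fun i => rk i < c)) (w j) (flip i x)) 0) ^ 2 ≤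
        (∑ s ∈ T, cf s * m c s x) * pav (L ∪ univ.filter (fun i => rk i < c)) (w j) x) :
    ∑ j ∈ J, avg (fun x => pav L (w j) x ^ (2 * p + 2)) ≤
      k * (τ + ((p : ℝ) + 1) ^ 2 * (n * ∑ s ∈ T, cf s * ν s)) ^ (2 * p + 1) := by
  set Lc : ℕ → Finset (Fin N) := fun c => L ∪ univ.filter (fun i => rk i < c) with hLc
  have hkey : ∀ e ≤ n, ∑ j ∈ J, avg (fun x => pav (Lc (n - e)) (w j) x ^ (2 * p + 2)) ≤
      k * (τ + ((p : ℝ) + 1) ^ 2 * (e * ∑ s ∈ T, cf s * ν s)) ^ (2 * p + 1) := by
    intro e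
    induction e with
    | zero =>
      intro _
      have huniv : Lc (n - 0) = univ := by
        ext i
        simp [hLc, hn i]
      rw [huniv]
      have h1 : ∀ j x, pav univ (w j) x = avg (w j) := by
        intro j x
        unfold pav
        congr 1
        funext y
        congr 1
        funext i
        simp [ovw]
      simp only [h1, avg_const]
      simp only [Nat.cast_zero, zero_mul, mul_zero, add_zero]
      have h2 : ∀ j ∈ J, avg (w j) ^ (2 * p + 2) ≤ avg (w j) * τ ^ (2 * p + 1) := by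
        intro j hj
        have h3 : 0 ≤ avg (w j) := avg_nonneg (hw j hj)
        have h4 := pow_le_pow_left₀ h3 (hτ j hj) (2 * p + 1)
        calc _ = avg (w j) * avg (w j) ^ (2 * p + 1) := by ring
          _ ≤ _ := mul_le_mul_of_nonneg_left h4 h3
      refine (Finset.sum_le_sum h2).trans ?_
      rw [← Finset.sum_mul]
      apply mul_le_mul_of_nonneg_right _ (by positivity)
      rw [← avg_sum]
      have := avg_mono hk
      rwa [avg_const] at this
    | succ e ih =>
      intro he
      have ih' := ih (by omega)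
      set c := n - (e + 1) with hc
      have hc1 : n - e = c + 1 := by omega
      have hcn : c < n := by omega
      rw [hc1] at ih'
      have hA : Lc (c + 1) = Lc c ∪ univ.filter (fun i => rk i = c) := by
        ext i
        simp only [hLc, mem_union, mem_filter, mem_univ, true_and, Nat.lt_succ_iff_lt_or_eq]
        tauto
      rw [hA] at ih'
      have hs0 : 0 ≤ ∑ s ∈ T, cf s * ν s :=
        Finset.sum_nonneg fun s hs => mul_nonneg (hcf s hs) (hν s hs).le
      have h0 : 0 ≤ ((p : ℝ) + 1) ^ 2 * (e * ∑ s ∈ T, cf s * ν s) := by positivity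
      have hstep := moment_step J (fun j => pav (Lc c) (w j))
        (fun j hj x => avg_nonneg fun y => hw j hj _) hk0
        (by
          intro x
          unfold pav
          rw [← avg_sum J (fun j y => w j (ovw (Lc c) y x))]
          have h1 : avg (fun y => ∑ j ∈ J, w j (ovw (Lc c) y x)) ≤
              avg (fun _ : Fin N → Bool => k) := avg_mono fun y => hk _
          rwa [avg_const] at h1) p (univ.filter (fun i => rk i = c)) T cf
        hcf (fun s => m c s) (fun s _ x => hm c s x) ν hν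
        (fun s hs => hmν c hcn s hs) (fun j hj x => hdiff c hcn j hj x)
        (μ' := τ + ((p : ℝ) + 1) ^ 2 * (e * ∑ s ∈ T, cf s * ν s)) (by linarith)
        (by simpa only [pav_pav] using ih')
      refine hstep.trans (le_of_eq ?_)
      congr 2
      push_cast
      ring
  have h := hkey n le_rfl
  have e0 : Lc (n - n) = L := by
    ext i
    simp [hLc]
  rwa [e0] at h

end

end Pool.Agent.H.MP_58d537_lc
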