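import Pool.Agent.H.MP_58d537_lc.A20H.Sys

/-!
# Light restrictions have small variance: heavy and light accesses
-/

set_option autoImplicit false

open Finset
open scoped InnerProductSpace

namespace Pool.Agent.H.MP_58d537_lc

noncomputable section

variable {N : ℕ} {H : Type*} [NormedAddCommGroup H] [InnerProductSpace ℂ H]

lemma pav_univ' (g : (Fin N → Bool) → ℝ) (x : Fin N → Bool) : pav univ g x = avg g := by
  unfold pav
  congr 1
  funext y
  congr 1
  funext i
  simp [ovw]

/-- a weight after partial averaging -/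
def QSys.pw (A : QSys N H) (S : Finset (Fin N)) (a : Fin N → Bool) (L : Finset (Fin N)) (t : ℕ)
    (Q : H →ₗ[ℂ] H) (x : Fin N → Bool) : ℝ :=
  pav L (fun z => ‖Q (A.st t (ovw S a z))‖ ^ 2) x

lemma QSys.pw_nonneg (A : QSys N H) (S : Finset (Fin N)) (a : Fin N → Bool)
    (L : Finset (Fin N)) (t : ℕ) (Q : H →ₗ[ℂ] H) (x : Fin N → Bool) : 0 ≤ A.pw S a L t Q x :=
  avg_nonneg fun _ => by positivity

lemma QSys.pw_flip_of_not (A : QSys N H) (S : Finset (Fin N)) (a : Fin N → Bool)
    (L : Finset (Fin N)) (t : ℕ) (Q : H →ₗ[ℂ] H) (x : Fin N → Bool) (i : Fin N)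
    (hi : i ∈ S ∨ i ∈ L) : A.pw S a L t Q (flip i x) = A.pw S a L t Q x := by
  by_cases hL : i ∈ L
  · exact pav_flip_mem hL _ x
  · have hS : i ∈ S := by tauto
    unfold QSys.pw pav
    congr 1
    funext y
    rw [ovw_flip hL]
    beta_reduce
    rw [ovw_flip_mem hS]

/-- free coordinates -/
def frH (S L : Finset (Fin N)) : Finset (Fin N) := univ.filter (fun i => i ∉ S ∧ i ∉ L)

lemma mem_frH {S L : Finset (Fin N)} {i : Fin N} : i ∈ frH S L ↔ i ∉ S ∧ i ∉ L := by
  simp [frH]

/-- pointwise maxima of the flipped weights -/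
lemma QSys.maxima (A : QSys N H) (S : Finset (Fin N)) (a : Fin N → Bool) (p : ℕ)
    (L : Finset (Fin N)) (s : ℕ) :
    ∃ M : (Fin N → Bool) → ℝ, (∀ x, 0 ≤ M x) ∧
      (∀ x, ∀ i ∈ frH S L, A.pw S a L s (A.P i) (flip i x) ≤ M x) ∧
      avg (fun x => M x ^ (2 * p + 2)) ≤
        ∑ i ∈ frH S L, avg (fun x => A.pw S a L s (A.P i) x ^ (2 * p + 2)) := by
  classical
  have hex : ∀ x, ∃ m : ℝ, 0 ≤ m ∧
      (∀ i ∈ frH S L, A.pw S a L s (A.P i) (flip i x) ≤ m) ∧
      m ^ (2 * p + 1 + 1) ≤
        ∑ i ∈ frH S L, A.pw S a L s (A.P i) (flip i x) ^ (2 * p + 1 + 1) := fun x =>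
    exists_max_pow (frH S L) (fun i => A.pw S a L s (A.P i) (flip i x))
      (fun i => A.pw_nonneg _ _ _ _ _ _) _
  choose M h0 h1 h2 using hex
  refine ⟨M, h0, h1, ?_⟩
  have h3 := avg_mono h2
  rw [avg_sum (frH S L) (fun i x => A.pw S a L s (A.P i) (flip i x) ^ (2 * p + 1 + 1))] at h3
  have h4 : ∀ i, avg (fun x => A.pw S a L s (A.P i) (flip i x) ^ (2 * p + 1 + 1)) =
      avg (fun x => A.pw S a L s (A.P i) x ^ (2 * p + 2)) := fun i =>
    avg_flip i (fun x => A.pw S a L s (A.P i) x ^ (2 * p + 1 + 1))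
  simp only [h4] at h3
  exact h3

variable {acc : ℕ → Finset (Fin N)}

/-- the influence bound along the chain given by the last heavy accesses before round `t` -/
lemma QSys.inflH (A : QSys N H) (S : Finset (Fin N)) (a : Fin N → Bool) (L : Finset (Fin N))
    (t q c : ℕ) {δ : ℝ} (hδ0 : 0 ≤ δ)
    (hδ : ∀ s < t, ∀ i, i ∉ acc s → ∀ x, ‖A.P i (A.st s x)‖ ^ 2 ≤ δ)
    (hq : ∀ i, i ∉ S → hcnt acc t i ≤ q)
    (Q : H →ₗ[ℂ] H) (hQs : ∀ u v, ⟪Q u, v⟫_ℂ = ⟪u, Q v⟫_ℂ)
    (hQi : ∀ v, Q (Q v) = Q v) (x : Fin N → Bool) (M : ℕ → ℝ) (hM0 : ∀ s, 0 ≤ M s)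
    (hM : ∀ s < c, ∀ i ∈ frH S (L ∪ univ.filter (fun i => hrk acc t i < c)),
      A.pw S a (L ∪ univ.filter (fun i => hrk acc t i < c)) s (A.P i) (flip i x) ≤ M s) :
    ∑ i ∈ univ.filter (fun i => hrk acc t i = c),
      (max (A.pw S a (L ∪ univ.filter (fun i => hrk acc t i < c)) t Q x -
        A.pw S a (L ∪ univ.filter (fun i => hrk acc t i < c)) t Q (flip i x)) 0) ^ 2 ≤
      (32 * A.k * (q * ∑ s ∈ range c, M s + t ^ 2 * δ)) *
        A.pw S a (L ∪ univ.filter (fun i => hrk acc t i < c)) t Q x := by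
  classical
  set Lc := L ∪ univ.filter (fun i => hrk acc t i < c) with hLc
  set F : Finset (Fin N) :=
    (univ.filter (fun i => hrk acc t i = c)).filter (fun i => i ∉ S ∧ i ∉ Lc) with hF
  have hmem : ∀ i ∈ F, hrk acc t i = c ∧ i ∉ S ∧ i ∉ Lc := by
    intro i hi
    rw [hF, Finset.mem_filter, Finset.mem_filter] at hi
    exact ⟨hi.1.2, hi.2.1, hi.2.2⟩
  have h1 := A.sum_diff_sq_hl (acc := acc) Q hQs hQi S Lc a t c q hδ0 hδ F
    (fun i hi => (hmem i hi).2.1)
    (fun i hi => (hmem i hi).2.2)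
    (by
      intro i hi s hs hcs hacc
      have := lt_hrk hs hacc
      rw [(hmem i hi).1] at this
      omega)
    (fun i hi => hq i (hmem i hi).2.1) x M hM0
    (by
      intro s hs i hi
      exact hM s hs i (mem_frH.mpr ⟨(hmem i hi).2.1, (hmem i hi).2.2⟩))
  refine le_trans (le_of_eq ?_) h1
  symm
  apply Finset.sum_subset (Finset.filter_subset _ _)
  intro i hi hi'
  have h2 : i ∈ S ∨ i ∈ Lc := by
    by_contra hcon
    push Not at hcon
    exact hi' (Finset.mem_filter.mpr ⟨hi, hcon⟩)
  have h3 := A.pw_flip_of_not S a Lc t Q x i h2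
  unfold QSys.pw at h3
  rw [h3]
  simp

/-- **moments of the weights**, by induction on the number of heavy accesses of the free
coordinates -/
theorem QSys.momentsH (A : QSys N H) (hk : 0 < A.k) (R q p : ℕ)
    (S : Finset (Fin N)) (a : Fin N → Bool) {τ : ℝ} (hτ0 : 0 < τ)
    (hτ : ∀ t < R, ∀ j, j ∉ S → avg (fun x => ‖A.P j (A.st t (ovw S a x))‖ ^ 2) ≤ τ)
    {δ : ℝ} (hδ0 : 0 < δ)
    (hδ : ∀ s < R, ∀ i, i ∉ acc s → ∀ x, ‖A.P i (A.st s x)‖ ^ 2 ≤ δ)
    (hq : ∀ i, i ∉ S → hcnt acc R i ≤ q) (ν : ℕ → ℝ) (hν : ∀ d, 0 < ν d)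
    (hrec0 : A.k * (τ + ((p : ℝ) + 1) ^ 2 * (32 * A.k * R ^ 2 * δ)) ^ (2 * p + 1) ≤
      ν 0 ^ (2 * p + 2))
    (hrec : ∀ d, A.k * (τ + ((p : ℝ) + 1) ^ 2 *
      (R * (R * (32 * q * A.k * ν d) + 32 * A.k * R ^ 2 * δ))) ^ (2 * p + 1) ≤
      ν (d + 1) ^ (2 * p + 2)) :
    ∀ d, ∀ t < R, ∀ L : Finset (Fin N), (∀ i, i ∉ S → i ∉ L → hcnt acc t i ≤ d) →
      ∑ j ∈ frH S L, avg (fun x => A.pw S a L t (A.P j) x ^ (2 * p + 2)) ≤
        ν d ^ (2 * p + 2) := by
  classical
  intro d
  induction d with
  | zero =>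
    intro t ht L hcnt
    refine le_trans ?_ hrec0
    have htR : (t : ℝ) ≤ R := by exact_mod_cast ht.le
    have h := chain_moment' (frH S L) (fun j x => ‖A.P j (A.st t (ovw S a x))‖ ^ 2)
      (fun j _ x => by positivity) hk.le
      (by
        intro x
        have h := A.weight (A.st t (ovw S a x))
        rw [A.norm_st, one_pow, mul_one] at h
        refine le_trans ?_ h
        exact Finset.sum_le_univ_sum_of_nonneg fun i => by positivity)
      p (fun _ => 0) L 1 (fun _ => by norm_num) hτ0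
      (fun j hj => hτ t ht j (mem_frH.mp hj).1) {0} (fun _ => 32 * A.k * R ^ 2)
      (fun _ _ => by positivity) (fun _ _ _ => δ)
      (fun _ _ _ => hδ0.le) (fun _ => δ) (fun _ _ => hδ0)
      (by
        intro c _ s _
        rw [avg_const])
      (by
        intro c hc j _ x
        have hc0 : c = 0 := by omega
        subst hc0
        -- all free coordinates outside `L` have no heavy access before `t`
        set L' : Finset (Fin N) := L ∪ univ.filter (fun _ : Fin N => 0 < 0) with hL'
        set F : Finset (Fin N) := univ.filter (fun i => i ∉ S ∧ i ∉ L') with hF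
        have hnoacc : ∀ i ∈ F, ∀ s < t, i ∉ acc s := by
          intro i hi s hs hacc
          rw [hF, Finset.mem_filter] at hi
          have h3 := hcnt i hi.2.1 (fun h => hi.2.2 (Finset.mem_union_left _ h))
          have h4 : s ∈ (range t).filter (fun s => i ∈ acc s) := by
            rw [Finset.mem_filter, Finset.mem_range]; exact ⟨hs, hacc⟩
          have h5 : 0 < Pool.Agent.H.MP_58d537_lc.hcnt acc t i := Finset.card_pos.mpr ⟨s, h4⟩
          omega
        have h1 := A.sum_diff_sq_hl (acc := acc) (A.P j) (A.symm j) (A.idem j) S L' a t 0 0 hδ0.le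
          (fun s hs => hδ s (by omega)) F
          (fun i hi => by rw [hF, Finset.mem_filter] at hi; exact hi.2.1)
          (fun i hi => by rw [hF, Finset.mem_filter] at hi; exact hi.2.2)
          (fun i hi s hs _ => hnoacc i hi s hs)
          (by
            intro i hi
            rw [hF, Finset.mem_filter] at hi
            exact hcnt i hi.2.1 (fun h => hi.2.2 (Finset.mem_union_left _ h)))
          x (fun _ => 0) (fun _ => le_rfl) (by intro s hs; omega)
        have h2 : ∑ i ∈ univ.filter (fun _ : Fin N => 0 = 0),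
            (max (pav L' (fun x => ‖A.P j (A.st t (ovw S a x))‖ ^ 2) x -
              pav L' (fun x => ‖A.P j (A.st t (ovw S a x))‖ ^ 2) (flip i x)) 0) ^ 2 =
            ∑ i ∈ F, (max (pav L' (fun x => ‖A.P j (A.st t (ovw S a x))‖ ^ 2) x -
              pav L' (fun x => ‖A.P j (A.st t (ovw S a x))‖ ^ 2) (flip i x)) 0) ^ 2 := by
          symm
          apply Finset.sum_subset
          · intro i _
            simp
          · intro i _ hi
            have h3 : i ∈ S ∨ i ∈ L' := by
              by_contra hcon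
              push Not at hcon
              exact hi (Finset.mem_filter.mpr ⟨Finset.mem_univ _, hcon⟩)
            have h4 := A.pw_flip_of_not S a L' t (A.P j) x i h3
            unfold QSys.pw at h4
            rw [h4]
            simp
        rw [h2]
        refine h1.trans ?_
        apply mul_le_mul_of_nonneg_right _ (avg_nonneg fun _ => by positivity)
        simp only [Finset.sum_singleton, Finset.range_zero, Finset.sum_empty, mul_zero, zero_add]
        calc 32 * A.k * ((t : ℝ) ^ 2 * δ) ≤ 32 * A.k * ((R : ℝ) ^ 2 * δ) := by gcongr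
          _ = _ := by ring)
    refine h.trans (le_of_eq ?_)
    simp
  | succ d ih =>
    intro t ht L hcnt
    refine le_trans ?_ (hrec d)
    -- maxima
    have hmx := fun (s : ℕ) (L' : Finset (Fin N)) => A.maxima S a p L' s
    choose M hM0 hM1 hM2 using hmx
    set Lc : ℕ → Finset (Fin N) := fun c => L ∪ univ.filter (fun i => hrk acc t i < c) with hLc
    have h := chain_moment' (frH S L) (fun j x => ‖A.P j (A.st t (ovw S a x))‖ ^ 2)
      (fun j _ x => by positivity) hk.le
      (by
        intro x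
        have h := A.weight (A.st t (ovw S a x))
        rw [A.norm_st, one_pow, mul_one] at h
        refine le_trans ?_ h
        exact Finset.sum_le_univ_sum_of_nonneg fun i => by positivity)
      p (hrk acc t) L (t + 1) (fun i => Nat.lt_succ_of_le (hrk_le t i)) hτ0
      (fun j hj => hτ t ht j (mem_frH.mp hj).1) (range (t + 1))
      (fun s => if s = t then 32 * A.k * R ^ 2 else 32 * q * A.k)
      (by
        intro s _
        split_ifs <;> positivity)
      (fun c s x => if s = t then δ else if s < c then M s (Lc c) x else 0)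
      (by
        intro c s x
        split_ifs
        · exact hδ0.le
        · exact hM0 s (Lc c) x
        · exact le_rfl)
      (fun s => if s = t then δ else ν d)
      (by
        intro s _
        split_ifs
        · exact hδ0
        · exact hν d)
      (by
        intro c hc s hs
        by_cases hst : s = t
        · simp only [hst, if_true]
          rw [avg_const]
        · simp only [hst, if_false]
          by_cases hsc : s < c
          · simp only [hsc, if_true]
            refine (hM2 s (Lc c)).trans ?_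
            apply ih s (by omega)
            intro i hiS hiL
            have h1 : i ∉ L := fun h => hiL (Finset.mem_union_left _ h)
            have h2 : c ≤ hrk acc t i := by
              by_contra hcon
              apply hiL
              apply Finset.mem_union_right
              rw [Finset.mem_filter]
              exact ⟨Finset.mem_univ _, by omega⟩
            have h3 := hcnt_lt (acc := acc) (s := s) (t := t) (i := i) (by omega)
            have h4 := hcnt i hiS h1
            omega
          · simp only [hsc, if_false]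
            rw [zero_pow (by omega), avg_const]
            exact pow_nonneg (hν d).le _)
      (by
        intro c hc j _ x
        have hct : c ≤ t := by omega
        have h1 := A.inflH (acc := acc) S a L t q c hδ0.le (fun s hs => hδ s (by omega))
          (fun i hi => (hcnt_mono ht.le i).trans (hq i hi)) (A.P j) (A.symm j) (A.idem j) x
          (fun s => M s (Lc c) x) (fun s => hM0 s (Lc c) x)
          (fun s _ i hi => hM1 s (Lc c) x i hi)
        refine le_trans h1 ?_
        apply mul_le_mul_of_nonneg_right _ (A.pw_nonneg _ _ _ _ _ _)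
        have e1 : ∑ s ∈ range (t + 1), (if s = t then 32 * A.k * (R : ℝ) ^ 2 else 32 * q * A.k) *
            (if s = t then δ else if s < c then M s (Lc c) x else 0) =
            32 * q * A.k * ∑ s ∈ range c, M s (Lc c) x + 32 * A.k * (R : ℝ) ^ 2 * δ := by
          rw [Finset.sum_range_succ]
          simp only [if_true]
          congr 1
          have e2 : ∑ s ∈ range t, (if s = t then 32 * A.k * (R : ℝ) ^ 2 else 32 * q * A.k) *
              (if s = t then δ else if s < c then M s (Lc c) x else 0) =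
              ∑ s ∈ range t, 32 * q * A.k * (if s < c then M s (Lc c) x else 0) := by
            apply Finset.sum_congr rfl
            intro s hs
            have : s ≠ t := (Finset.mem_range.mp hs).ne
            rw [if_neg this, if_neg this]
          rw [e2, ← Finset.mul_sum]
          congr 1
          have hsub : range c ⊆ range t := Finset.range_subset_range.mpr hct
          rw [← Finset.sum_subset hsub]
          · apply Finset.sum_congr rfl
            intro s hs
            rw [if_pos (Finset.mem_range.mp hs)]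
          · intro s _ hs
            rw [if_neg (fun h => hs (Finset.mem_range.mpr h))]
        rw [e1]
        have htR : (t : ℝ) ≤ R := by exact_mod_cast ht.le
        calc 32 * A.k * (q * ∑ s ∈ range c, M s (Lc c) x + (t : ℝ) ^ 2 * δ) ≤
            32 * A.k * (q * ∑ s ∈ range c, M s (Lc c) x + (R : ℝ) ^ 2 * δ) := by gcongr
          _ = _ := by ring)
    refine h.trans ?_
    apply mul_le_mul_of_nonneg_left _ hk.le
    have hR1 : ((t + 1 : ℕ) : ℝ) ≤ R := by exact_mod_cast ht
    have hR2 : (t : ℝ) ≤ R := by exact_mod_cast ht.le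
    have hν' := hν d
    have e3 : ∑ s ∈ range (t + 1), (if s = t then 32 * A.k * (R : ℝ) ^ 2 else 32 * q * A.k) *
        (if s = t then δ else ν d) = t * (32 * q * A.k * ν d) + 32 * A.k * (R : ℝ) ^ 2 * δ := by
      rw [Finset.sum_range_succ]
      simp only [if_true]
      congr 1
      have e4 : ∑ s ∈ range t, (if s = t then 32 * A.k * (R : ℝ) ^ 2 else 32 * q * A.k) *
          (if s = t then δ else ν d) = ∑ _s ∈ range t, 32 * q * A.k * ν d := by
        apply Finset.sum_congr rfl
        intro s hs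
        have : s ≠ t := (Finset.mem_range.mp hs).ne
        rw [if_neg this, if_neg this]
      rw [e4, Finset.sum_const, Finset.card_range, nsmul_eq_mul]
    rw [e3]
    gcongr

/-- **variance of a light restriction** -/
theorem QSys.light_varH (A : QSys N H) (hk : 0 < A.k) (R q p : ℕ) (hR : 1 ≤ R) (hq1 : 1 ≤ q)
    (S : Finset (Fin N)) (a : Fin N → Bool) {τ : ℝ} (hτ0 : 0 < τ)
    (hτ : ∀ t < R, ∀ j, j ∉ S → avg (fun x => ‖A.P j (A.st t (ovw S a x))‖ ^ 2) ≤ τ)
    {δ : ℝ} (hδ0 : 0 < δ)
    (hδ : ∀ s < R, ∀ i, i ∉ acc s → ∀ x, ‖A.P i (A.st s x)‖ ^ 2 ≤ δ)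
    (hq : ∀ i, i ∉ S → hcnt acc R i ≤ q) (ν : ℕ → ℝ) (hν : ∀ d, 0 < ν d)
    (hrec0 : A.k * (τ + ((p : ℝ) + 1) ^ 2 * (32 * A.k * R ^ 2 * δ)) ^ (2 * p + 1) ≤
      ν 0 ^ (2 * p + 2))
    (hrec : ∀ d, A.k * (τ + ((p : ℝ) + 1) ^ 2 *
      (R * (R * (32 * q * A.k * ν d) + 32 * A.k * R ^ 2 * δ))) ^ (2 * p + 1) ≤
      ν (d + 1) ^ (2 * p + 2))
    (Q : H →ₗ[ℂ] H) (hQs : ∀ u v, ⟪Q u, v⟫_ℂ = ⟪u, Q v⟫_ℂ) (hQi : ∀ v, Q (Q v) = Q v)
    (hQn : ∀ v, ‖Q v‖ ≤ ‖v‖) :
    var (fun x => ‖Q (A.st R (ovw S a x))‖ ^ 2) ≤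
      16 * (q * R ^ 2 * A.k) * ν (q - 1) + 32 * A.k * R ^ 3 * δ := by
  classical
  have hmom := A.momentsH (acc := acc) hk R q p S a hτ0 hτ hδ0 hδ hq ν hν hrec0 hrec (q - 1)
  have hmx := fun (s : ℕ) (L' : Finset (Fin N)) => A.maxima S a p L' s
  choose M hM0 hM1 hM2 using hmx
  set Lc : ℕ → Finset (Fin N) := fun c => ∅ ∪ univ.filter (fun i => hrk acc R i < c) with hLc
  set G : ℕ → (Fin N → Bool) → ℝ := fun c => A.pw S a (Lc c) R Q with hG
  -- one step
  have hstep : ∀ c ≤ R, avg (fun x => G c x ^ 2) - avg (fun x => G (c + 1) x ^ 2) ≤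
      16 * A.k * (q * (c * ν (q - 1)) + R ^ 2 * δ) := by
    intro c hc
    have hA : Lc (c + 1) = Lc c ∪ univ.filter (fun i => hrk acc R i = c) := by
      ext i
      simp only [hLc, mem_union, mem_filter, mem_univ, true_and, Nat.lt_succ_iff_lt_or_eq]
      tauto
    have h1 := cond_es (Lc c) (univ.filter (fun i => hrk acc R i = c))
      (fun z => ‖Q (A.st R (ovw S a z))‖ ^ 2)
    rw [← hA] at h1
    refine h1.trans ?_
    rw [← avg_sum (univ.filter (fun i => hrk acc R i = c))
      (fun i x => (max (pav (Lc c) (fun z => ‖Q (A.st R (ovw S a z))‖ ^ 2) x -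
        pav (Lc c) (fun z => ‖Q (A.st R (ovw S a z))‖ ^ 2) (flip i x)) 0) ^ 2)]
    have hpt : ∀ x, ∑ i ∈ univ.filter (fun i => hrk acc R i = c),
        (max (pav (Lc c) (fun z => ‖Q (A.st R (ovw S a z))‖ ^ 2) x -
        pav (Lc c) (fun z => ‖Q (A.st R (ovw S a z))‖ ^ 2) (flip i x)) 0) ^ 2 ≤
        32 * A.k * q * ∑ s ∈ range c, M s (Lc c) x + 32 * A.k * (R ^ 2 * δ) := by
      intro x
      have h2 := A.inflH (acc := acc) S a ∅ R q c hδ0.le hδ hq Q hQs hQi x
        (fun s => M s (Lc c) x)
        (fun s => hM0 s (Lc c) x) (fun s _ i hi => hM1 s (Lc c) x i hi)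
      refine h2.trans ?_
      have h3 : A.pw S a (Lc c) R Q x ≤ 1 := by
        have h4 : A.pw S a (Lc c) R Q x ≤ avg (fun _ : Fin N → Bool => (1 : ℝ)) := by
          apply avg_mono
          intro z
          have := hQn (A.st R (ovw S a (ovw (Lc c) z x)))
          rw [A.norm_st] at this
          exact pow_le_one₀ (norm_nonneg _) this
        rwa [avg_const] at h4
      have h5 : 0 ≤ 32 * A.k * (q * ∑ s ∈ range c, M s (Lc c) x + R ^ 2 * δ) := by
        have : 0 ≤ ∑ s ∈ range c, M s (Lc c) x := Finset.sum_nonneg fun s _ => hM0 s (Lc c) x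
        positivity
      calc _ ≤ (32 * A.k * (q * ∑ s ∈ range c, M s (Lc c) x + R ^ 2 * δ)) * 1 :=
            mul_le_mul_of_nonneg_left h3 h5
        _ = _ := by ring
    have h6 := avg_mono hpt
    rw [avg_add (fun x => 32 * A.k * q * ∑ s ∈ range c, M s (Lc c) x)
      (fun _ => 32 * A.k * (R ^ 2 * δ)), avg_const, avg_const_mul,
      avg_sum (range c) (fun s x => M s (Lc c) x)] at h6
    have h7 : ∀ s ∈ range c, avg (fun x => M s (Lc c) x) ≤ ν (q - 1) := by
      intro s hs
      have hsc := Finset.mem_range.mp hs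
      apply avg_le_of_pow (hM0 s (Lc c)) (2 * p + 1) (hν (q - 1))
      refine (hM2 s (Lc c)).trans ?_
      apply hmom s (by omega)
      intro i hiS hiL
      have h2 : c ≤ hrk acc R i := by
        by_contra hcon
        apply hiL
        apply Finset.mem_union_right
        rw [Finset.mem_filter]
        exact ⟨Finset.mem_univ _, by omega⟩
      have h3 := hcnt_lt (acc := acc) (s := s) (t := R) (i := i) (by omega)
      have h4 := hq i hiS
      omega
    have h8 := Finset.sum_le_sum h7
    rw [Finset.sum_const, Finset.card_range, nsmul_eq_mul] at h8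
    have h9 : 32 * A.k * q * ∑ s ∈ range c, avg (fun x => M s (Lc c) x) ≤
        32 * A.k * q * (c * ν (q - 1)) := mul_le_mul_of_nonneg_left h8 (by positivity)
    linarith
  -- the chain
  have hchain : ∀ c ≤ R + 1, avg (fun x => G 0 x ^ 2) - avg (fun x => G c x ^ 2) ≤
      8 * q * A.k * ν (q - 1) * (c * ((c : ℝ) - 1)) + c * (16 * A.k * (R ^ 2 * δ)) := by
    intro c
    induction c with
    | zero => intro _; simp
    | succ c ih =>
      intro hc
      have h1 := ih (by omega)
      have h2 := hstep c (by omega)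
      push_cast
      calc _ = (avg (fun x => G 0 x ^ 2) - avg (fun x => G c x ^ 2)) +
            (avg (fun x => G c x ^ 2) - avg (fun x => G (c + 1) x ^ 2)) := by ring
        _ ≤ (8 * q * A.k * ν (q - 1) * (c * ((c : ℝ) - 1)) + c * (16 * A.k * (R ^ 2 * δ))) +
            16 * A.k * (q * (c * ν (q - 1)) + R ^ 2 * δ) :=
            add_le_add h1 h2
        _ = _ := by ring
  have hfin := hchain (R + 1) le_rfl
  have e0 : G 0 = fun x => ‖Q (A.st R (ovw S a x))‖ ^ 2 := by
    funext x
    simp only [hG, hLc, QSys.pw]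
    have : (∅ ∪ univ.filter (fun i => hrk acc R i < 0) : Finset (Fin N)) = ∅ := by
      ext i; simp
    rw [this, pav_empty]
  have e1 : G (R + 1) = fun _ => avg (fun x => ‖Q (A.st R (ovw S a x))‖ ^ 2) := by
    funext x
    simp only [hG, hLc, QSys.pw]
    have : (∅ ∪ univ.filter (fun i => hrk acc R i < R + 1) : Finset (Fin N)) = univ := by
      ext i
      have := hrk_le (acc := acc) R i
      simp only [mem_union, mem_filter, mem_univ, true_and, iff_true]
      right; omega
    rw [this, pav_univ']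
  rw [e0, e1, avg_const] at hfin
  unfold var
  refine hfin.trans ?_
  push_cast
  have hR' : (1 : ℝ) ≤ R := by exact_mod_cast hR
  have h1 : ((R : ℝ) + 1) * ((R : ℝ) + 1 - 1) ≤ 2 * (R : ℝ) ^ 2 := by nlinarith
  have h2 : 0 ≤ 8 * q * A.k * ν (q - 1) := by
    have := hν (q - 1)
    positivity
  have h3 : ((R : ℝ) + 1) * (16 * A.k * (R ^ 2 * δ)) ≤ 32 * A.k * R ^ 3 * δ := by
    have h4 : 0 ≤ 16 * A.k * ((R : ℝ) ^ 2 * δ) := by positivity
    calc _ ≤ (2 * R) * (16 * A.k * ((R : ℝ) ^ 2 * δ)) :=
          mul_le_mul_of_nonneg_right (by linarith) h4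
      _ = _ := by ring
  have h4 : 8 * q * A.k * ν (q - 1) * (((R : ℝ) + 1) * ((R : ℝ) + 1 - 1)) ≤
      8 * q * A.k * ν (q - 1) * (2 * (R : ℝ) ^ 2) := mul_le_mul_of_nonneg_left h1 h2
  calc _ ≤ 8 * q * A.k * ν (q - 1) * (2 * (R : ℝ) ^ 2) + 32 * A.k * R ^ 3 * δ :=
        add_le_add h4 h3
    _ = _ := by ring

end

end Pool.Agent.H.MP_58d537_lc
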