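import Pool.Agent.H.MP_58d537_lc.A20H.Light

/-!
# Bit fixing for algorithms with few heavy rounds per coordinate, abstract form
-/

set_option autoImplicit false

open Finset
open scoped InnerProductSpace

namespace Pool.Agent.H.MP_58d537_lc

noncomputable section

lemma nu_ge {p : ℕ} {k τ : ℝ} (hk : 1 ≤ k) (hτ0 : 0 < τ) (hτ1 : τ ≤ 1) (t : ℕ) :
    τ ≤ nu p k τ t := by
  have h1 := one_le_root (p := p) hk
  have h2 := gro_ge (p := p) hk
  have h3 : 1 ≤ gro p k ^ t := one_le_pow₀ (by linarith)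
  have h4 : τ ≤ τ ^ (kap p ^ (t + 1)) := by
    have : τ ^ (1 : ℝ) ≤ τ ^ (kap p ^ (t + 1)) := by
      apply Real.rpow_le_rpow_of_exponent_ge hτ0 hτ1
      exact pow_le_one₀ (kap_pos p).le (kap_le_one p)
    simpa using this
  unfold nu
  have h5 : 1 ≤ k ^ (1 / (2 * ((p : ℝ) + 1))) * gro p k ^ t := by nlinarith
  have h6 : 0 < τ ^ (kap p ^ (t + 1)) := by positivity
  nlinarith


/-- the variance of a light restriction, with explicit constants -/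
lemma QSys.light_varH' {N : ℕ} {H : Type*} [NormedAddCommGroup H] [InnerProductSpace ℂ H]
    (A : QSys N H) {acc : ℕ → Finset (Fin N)}
    (hk : 1 ≤ A.k) (R q : ℕ) (hR : 1 ≤ R) (hq1 : 1 ≤ q)
    (hq : ∀ i, hcnt acc R i ≤ q) (S : Finset (Fin N))
    (a : Fin N → Bool) {τ : ℝ} (hτ0 : 0 < τ) (hτ1 : τ ≤ 1)
    (hτ : ∀ t < R, ∀ j, j ∉ S → avg (fun x => ‖A.P j (A.st t (ovw S a x))‖ ^ 2) ≤ τ / 2)
    {δ : ℝ} (hδ0 : 0 < δ) (hδ1 : 64 * q ^ 2 * A.k * R ^ 2 * δ ≤ τ)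
    (hδ : ∀ s < R, ∀ i, i ∉ acc s → ∀ x, ‖A.P i (A.st s x)‖ ^ 2 ≤ δ)
    (Q : H →ₗ[ℂ] H) (hQs : ∀ u v, ⟪Q u, v⟫_ℂ = ⟪u, Q v⟫_ℂ) (hQi : ∀ v, Q (Q v) = Q v)
    (hQn : ∀ v, ‖Q v‖ ≤ ‖v‖) :
    var (fun x => ‖Q (A.st R (ovw S a x))‖ ^ 2) ≤
      gro (q - 1) (3 * q * R ^ 2 * A.k) ^ q * Real.sqrt τ / 2 := by
  set κ : ℝ := 3 * q * R ^ 2 * A.k with hκ
  have hR' : (1 : ℝ) ≤ R := by exact_mod_cast hR
  have hq' : (1 : ℝ) ≤ q := by exact_mod_cast hq1
  have hR2 : (1 : ℝ) ≤ (R : ℝ) ^ 2 := one_le_pow₀ hR'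
  have hk0 : 0 < A.k := by linarith
  have hqR : 1 ≤ (q : ℝ) * (R : ℝ) ^ 2 := by nlinarith
  have hkκ : A.k ≤ κ := by
    rw [hκ]
    nlinarith
  have hκ1 : 1 ≤ κ := hk.trans hkκ
  have hp1 : (((q - 1 : ℕ) : ℝ) + 1) = q := by
    rw [Nat.cast_sub hq1]; push_cast; ring
  have hν : ∀ s, 0 < nu (q - 1) κ τ s := fun s => nu_pos hκ1 hτ0 s
  have hντ : ∀ s, τ ≤ nu (q - 1) κ τ s := fun s => nu_ge hκ1 hτ0 hτ1 s
  have hmain := A.light_varH (acc := acc) hk0 R q (q - 1) hR hq1 S a (half_pos hτ0) hτ hδ0 hδ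
    (fun i _ => hq i) (nu (q - 1) κ τ) hν
    (by
      have h := nu_rec (p := q - 1) hκ1 hτ0 hτ1 0
      simp only [Finset.range_zero, Finset.sum_empty, add_zero] at h
      refine le_trans ?_ h
      rw [hp1]
      have h1 : τ / 2 + (q : ℝ) ^ 2 * (32 * A.k * R ^ 2 * δ) ≤ τ := by nlinarith
      have h2 : 0 ≤ τ / 2 + (q : ℝ) ^ 2 * (32 * A.k * R ^ 2 * δ) := by positivity
      have h3 := pow_le_pow_left₀ h2 h1 (2 * (q - 1) + 1)
      calc _ ≤ A.k * τ ^ (2 * (q - 1) + 1) := mul_le_mul_of_nonneg_left h3 hk0.le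
        _ ≤ _ := mul_le_mul_of_nonneg_right hkκ (by positivity))
    (by
      intro d
      have h := nu_rec (p := q - 1) hκ1 hτ0 hτ1 (d + 1)
      refine le_trans ?_ h
      have hd := hν d
      have hdτ := hντ d
      rw [hp1]
      have h1 : 16 * (q : ℝ) ^ 2 * κ * nu (q - 1) κ τ d ≤
          ∑ s ∈ range (d + 1), (8 * (q : ℝ) ^ 2 * κ * 2 ^ (d + 1 - s)) *
            nu (q - 1) κ τ s := by
        have h2 := Finset.single_le_sum
          (f := fun s => (8 * (q : ℝ) ^ 2 * κ * 2 ^ (d + 1 - s)) * nu (q - 1) κ τ s)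
          (fun s _ => mul_nonneg (by positivity) (hν s).le)
          (Finset.self_mem_range_succ d)
        refine le_trans (le_of_eq ?_) h2
        rw [Nat.add_sub_cancel_left, pow_one]
        ring
      have h2 : (q : ℝ) ^ 2 * (32 * A.k * R ^ 3 * δ) ≤ R * τ / 2 := by
        have h3 := mul_le_mul_of_nonneg_left hδ1 (show (0 : ℝ) ≤ R / 2 by positivity)
        calc _ = (R : ℝ) / 2 * (64 * q ^ 2 * A.k * R ^ 2 * δ) := by ring
          _ ≤ (R : ℝ) / 2 * τ := h3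
          _ = _ := by ring
      have h3 : (R : ℝ) * τ / 2 ≤ 16 * (q : ℝ) ^ 2 * (q * R ^ 2 * A.k) * nu (q - 1) κ τ d := by
        have h4 : (R : ℝ) * τ ≤ R * nu (q - 1) κ τ d := by gcongr
        have h5 : (R : ℝ) ≤ 16 * (q : ℝ) ^ 2 * (q * R ^ 2 * A.k) := by
          have e1 : (1 : ℝ) ≤ (q : ℝ) ^ 2 := one_le_pow₀ hq'
          have e2 : (R : ℝ) ≤ (R : ℝ) ^ 2 := by nlinarith
          have e3 : (R : ℝ) ≤ q * (R : ℝ) ^ 2 := by nlinarith
          have e4 : (R : ℝ) ≤ q * (R : ℝ) ^ 2 * A.k := by nlinarith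
          nlinarith
        have h6 : (R : ℝ) * nu (q - 1) κ τ d ≤
            16 * (q : ℝ) ^ 2 * (q * R ^ 2 * A.k) * nu (q - 1) κ τ d :=
          mul_le_mul_of_nonneg_right h5 hd.le
        have h7 : 0 ≤ (R : ℝ) * τ := by positivity
        linarith
      have h4 : 0 ≤ τ / 2 + (q : ℝ) ^ 2 *
          (R * (R * (32 * q * A.k * nu (q - 1) κ τ d) + 32 * A.k * R ^ 2 * δ)) := by positivity
      have h5 : τ / 2 + (q : ℝ) ^ 2 *
          (R * (R * (32 * q * A.k * nu (q - 1) κ τ d) + 32 * A.k * R ^ 2 * δ)) ≤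
          τ + ∑ s ∈ range (d + 1), (8 * (q : ℝ) ^ 2 * κ * 2 ^ (d + 1 - s)) *
            nu (q - 1) κ τ s := by
        have e1 : (q : ℝ) ^ 2 *
            (R * (R * (32 * q * A.k * nu (q - 1) κ τ d) + 32 * A.k * R ^ 2 * δ)) =
            32 * (q : ℝ) ^ 2 * (q * R ^ 2 * A.k) * nu (q - 1) κ τ d +
              (q : ℝ) ^ 2 * (32 * A.k * R ^ 3 * δ) := by ring
        have e2 : 16 * (q : ℝ) ^ 2 * κ * nu (q - 1) κ τ d =
            48 * (q : ℝ) ^ 2 * (q * R ^ 2 * A.k) * nu (q - 1) κ τ d := by rw [hκ]; ring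
        rw [e1]
        rw [e2] at h1
        linarith
      have h6 := pow_le_pow_left₀ h4 h5 (2 * (q - 1) + 1)
      calc _ ≤ A.k * (τ + ∑ s ∈ range (d + 1),
            (8 * (q : ℝ) ^ 2 * κ * 2 ^ (d + 1 - s)) * nu (q - 1) κ τ s)
              ^ (2 * (q - 1) + 1) := mul_le_mul_of_nonneg_left h6 hk0.le
        _ ≤ _ := by
            apply mul_le_mul_of_nonneg_right hkκ
            apply pow_nonneg
            linarith)
    Q hQs hQi hQn
  refine hmain.trans ?_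
  have h2 := final_sum_le (p := q - 1) hκ1 hτ0 hτ1 q
  have h3 : 8 * κ * (2 * nu (q - 1) κ τ (q - 1)) ≤
      8 * κ * ∑ s ∈ range q, 2 ^ (q - s) * nu (q - 1) κ τ s := by
    apply mul_le_mul_of_nonneg_left _ (by linarith)
    have h4 := Finset.single_le_sum
      (f := fun s => (2 : ℝ) ^ (q - s) * nu (q - 1) κ τ s)
      (fun s _ => mul_nonneg (by positivity) (hν s).le)
      (Finset.mem_range.mpr (show q - 1 < q by omega))
    refine le_trans (le_of_eq ?_) h4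
    have : q - (q - 1) = 1 := by omega
    simp only [this, pow_one]
  have hG := gro_ge (p := q - 1) hκ1
  have h5 : τ ^ (kap (q - 1) ^ q) ≤ Real.sqrt τ := by
    rw [Real.sqrt_eq_rpow]
    exact Real.rpow_le_rpow_of_exponent_ge hτ0 hτ1 (kap_pow_ge q hq1)
  have h6 : gro (q - 1) κ ^ q * τ ^ (kap (q - 1) ^ q) ≤ gro (q - 1) κ ^ q * Real.sqrt τ :=
    mul_le_mul_of_nonneg_left h5 (by positivity)
  have h7 : 32 * A.k * R ^ 3 * δ ≤ 8 * (q * R ^ 2 * A.k) * nu (q - 1) κ τ (q - 1) := by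
    have hd := hν (q - 1)
    have hdτ := hντ (q - 1)
    have e1 : 32 * A.k * R ^ 3 * δ ≤ R * τ / 2 := by
      have h8 := mul_le_mul_of_nonneg_left hδ1 (show (0 : ℝ) ≤ R / 2 by positivity)
      have h9 : 32 * A.k * R ^ 3 * δ ≤ (R : ℝ) / 2 * (64 * q ^ 2 * A.k * R ^ 2 * δ) := by
        have e : (R : ℝ) / 2 * (64 * q ^ 2 * A.k * R ^ 2 * δ) =
            (q : ℝ) ^ 2 * (32 * A.k * R ^ 3 * δ) := by ring
        rw [e]
        have e1 : (1 : ℝ) ≤ (q : ℝ) ^ 2 := one_le_pow₀ hq'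
        have e2 : 0 ≤ 32 * A.k * R ^ 3 * δ := by positivity
        nlinarith
      linarith
    have h4 : (R : ℝ) * τ ≤ R * nu (q - 1) κ τ (q - 1) := by gcongr
    have h5 : (R : ℝ) ≤ 8 * (q * R ^ 2 * A.k) := by
      have e2 : (R : ℝ) ≤ (R : ℝ) ^ 2 := by nlinarith
      have e3 : (R : ℝ) ≤ q * (R : ℝ) ^ 2 := by nlinarith
      have e4 : (R : ℝ) ≤ q * (R : ℝ) ^ 2 * A.k := by nlinarith
      linarith
    have h6 : (R : ℝ) * nu (q - 1) κ τ (q - 1) ≤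
        8 * (q * R ^ 2 * A.k) * nu (q - 1) κ τ (q - 1) :=
      mul_le_mul_of_nonneg_right h5 hd.le
    have h7 : 0 ≤ (R : ℝ) * τ := by positivity
    linarith
  calc _ ≤ 16 * (q * R ^ 2 * A.k) * nu (q - 1) κ τ (q - 1) +
        8 * (q * R ^ 2 * A.k) * nu (q - 1) κ τ (q - 1) := by linarith
    _ = 8 * κ * (2 * nu (q - 1) κ τ (q - 1)) / 2 := by rw [hκ]; ring
    _ ≤ _ := by linarith

/-- **Main theorem, abstract form.** -/
theorem QSys.exists_bitfixH {N : ℕ} {H : Type*} [NormedAddCommGroup H] [InnerProductSpace ℂ H]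
    (A : QSys N H) {acc : ℕ → Finset (Fin N)}
    (hk : 1 ≤ A.k) (R q : ℕ) (hR : 1 ≤ R) (hq1 : 1 ≤ q)
    (hq : ∀ i, hcnt acc R i ≤ q)
    (Q : H →ₗ[ℂ] H) (hQs : ∀ u v, ⟪Q u, v⟫_ℂ = ⟪u, Q v⟫_ℂ) (hQi : ∀ v, Q (Q v) = Q v)
    (hQn : ∀ v, ‖Q v‖ ≤ ‖v‖) (hvar : 0 < var (fun x => ‖Q (A.st R x)‖ ^ 2))
    (hδ : ∀ s < R, ∀ i, i ∉ acc s → ∀ x, ‖A.P i (A.st s x)‖ ^ 2 ≤
      var (fun x => ‖Q (A.st R x)‖ ^ 2) ^ 2 /
        (8 * (6 * q) ^ (4 * q + 2) * (3 * q * R ^ 2 * A.k) ^ (2 * q + 2))) :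
    ∃ (S : Finset (Fin N)) (a : Fin N → Bool),
      (S.card : ℝ) ≤ 32 * R * A.k * (6 * q) ^ (4 * q) * (3 * q * R ^ 2 * A.k) ^ (2 * q + 1) /
        var (fun x => ‖Q (A.st R x)‖ ^ 2) ^ 3 ∧
      var (fun x => ‖Q (A.st R x)‖ ^ 2) / 2 ≤
        (avgR S a (fun x => ‖Q (A.st R x)‖ ^ 2) - avg (fun x => ‖Q (A.st R x)‖ ^ 2)) ^ 2 := by
  set f : (Fin N → Bool) → ℝ := fun x => ‖Q (A.st R x)‖ ^ 2 with hf
  have hf0 : ∀ x, 0 ≤ f x := fun x => by positivity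
  have hf1 : ∀ x, f x ≤ 1 := by
    intro x
    have := hQn (A.st R x)
    rw [A.norm_st] at this
    exact pow_le_one₀ (norm_nonneg _) this
  have hv1 : var f ≤ 1 := by
    unfold var
    have h1 : avg (fun x => f x ^ 2) ≤ 1 := by
      have : avg (fun x => f x ^ 2) ≤ avg (fun _ : Fin N → Bool => (1 : ℝ)) :=
        avg_mono fun x => pow_le_one₀ (hf0 x) (hf1 x)
      rwa [avg_const] at this
    nlinarith [sq_nonneg (avg f)]
  have hR' : (1 : ℝ) ≤ R := by exact_mod_cast hR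
  have hq' : (1 : ℝ) ≤ q := by exact_mod_cast hq1
  have hk0 : 0 < A.k := by linarith
  have hR2 : (1 : ℝ) ≤ (R : ℝ) ^ 2 := one_le_pow₀ hR'
  have hqR : 1 ≤ (q : ℝ) * (R : ℝ) ^ 2 := by nlinarith
  set κ : ℝ := 3 * q * R ^ 2 * A.k with hκ
  have hκ1 : 1 ≤ κ := by rw [hκ]; nlinarith
  have hG := gro_ge (p := q - 1) hκ1
  set G := gro (q - 1) κ ^ q with hGdef
  have hG1 : 1 ≤ G := one_le_pow₀ (by linarith)
  have eG : G ^ 2 = (6 * q) ^ (4 * q) * κ ^ (2 * q + 1) := gro_pow_sq q hq1 hκ1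
  set τ := (var f / (2 * G)) ^ 2 with hτdef
  have hτ0 : 0 < τ := by positivity
  have hτs : Real.sqrt τ = var f / (2 * G) := by
    rw [hτdef, Real.sqrt_sq (by positivity)]
  have hτ1 : τ ≤ 1 := by
    rw [hτdef]
    apply pow_le_one₀ (by positivity)
    rw [div_le_one (by positivity)]
    linarith
  set δ : ℝ := var f ^ 2 / (8 * (6 * q) ^ (4 * q + 2) * κ ^ (2 * q + 2)) with hδdef
  have hδ0 : 0 < δ := by positivity
  have hδ1 : 64 * q ^ 2 * A.k * R ^ 2 * δ ≤ τ := by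
    have e1 : τ = var f ^ 2 / (4 * ((6 * q) ^ (4 * q) * κ ^ (2 * q + 1))) := by
      rw [hτdef, ← eG]
      field_simp
      ring
    rw [e1, hδdef, mul_div_assoc', div_le_div_iff₀ (by positivity) (by positivity)]
    have e2 : 64 * (q : ℝ) ^ 2 * A.k * R ^ 2 * var f ^ 2 *
        (4 * ((6 * q) ^ (4 * q) * κ ^ (2 * q + 1))) =
        (256 * q ^ 2 * A.k * R ^ 2) * (var f ^ 2 * ((6 * q) ^ (4 * q) * κ ^ (2 * q + 1))) := by
      ring
    have e3 : var f ^ 2 * (8 * (6 * q) ^ (4 * q + 2) * κ ^ (2 * q + 2)) =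
        (288 * q ^ 2 * κ) * (var f ^ 2 * ((6 * q) ^ (4 * q) * κ ^ (2 * q + 1))) := by
      ring
    rw [e2, e3]
    apply mul_le_mul_of_nonneg_right _ (by positivity)
    rw [hκ]
    have e4 : 0 ≤ (q : ℝ) ^ 2 * (A.k * R ^ 2) := by positivity
    have e5 : (q : ℝ) ^ 2 * (A.k * R ^ 2) ≤ q * ((q : ℝ) ^ 2 * (A.k * R ^ 2)) := by nlinarith
    nlinarith
  -- the bound
  set n : ℕ := ⌈4 * (R * A.k) / (τ / 2 * var f)⌉₊ with hn
  have hnpos : 0 < 4 * (R * A.k) / (τ / 2 * var f) := by positivity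
  have hn1 : 1 ≤ n := Nat.one_le_iff_ne_zero.mpr (Nat.ceil_pos.mpr hnpos).ne'
  have hnlow : 4 * (R * A.k) / (τ / 2 * var f) ≤ n := Nat.le_ceil _
  have hnup : (n : ℝ) < 4 * (R * A.k) / (τ / 2 * var f) + 1 := Nat.ceil_lt_add_one hnpos.le
  obtain ⟨S, a, hcard, hdev⟩ := exists_fixing f hf0 hf1
    (fun j x => ∑ t ∈ range R, ‖A.P j (A.st t x)‖ ^ 2)
    (fun j x => Finset.sum_nonneg fun t _ => by positivity) (R * A.k)
    (by
      intro x
      rw [Finset.sum_comm]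
      calc _ ≤ ∑ t ∈ range R, A.k := by
            apply Finset.sum_le_sum
            intro t _
            have := A.weight (A.st t x)
            rwa [A.norm_st, one_pow, mul_one] at this
        _ = R * A.k := by simp) (τ / 2) (half_pos hτ0) hvar
    (by
      intro S a hl
      have h1 := A.light_varH' (acc := acc) hk R q hR hq1 hq S a hτ0 hτ1 (by
        intro t ht j hj
        refine le_trans ?_ (hl j hj)
        unfold avgR
        apply avg_mono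
        intro x
        exact Finset.single_le_sum (f := fun t => ‖A.P j (A.st t (ovw S a x))‖ ^ 2)
          (fun t _ => by positivity) (Finset.mem_range.mpr ht)) hδ0 hδ1 hδ Q hQs hQi hQn
      refine h1.trans (le_of_eq ?_)
      rw [hτs, ← hκ, ← hGdef]
      field_simp
      norm_num)
    n hn1 (by
      rw [div_le_iff₀ (by positivity)] at hnlow
      linarith)
  refine ⟨S, a, ?_, hdev⟩
  have hc : (S.card : ℝ) ≤ n - 1 := by
    have : (S.card : ℝ) ≤ ((n - 1 : ℕ) : ℝ) := by exact_mod_cast hcard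
    rwa [Nat.cast_sub hn1, Nat.cast_one] at this
  have hc2 : (S.card : ℝ) ≤ 4 * (R * A.k) / (τ / 2 * var f) := by linarith
  refine hc2.trans (le_of_eq ?_)
  rw [hτdef]
  have e2 : 4 * (R * A.k) / ((var f / (2 * G)) ^ 2 / 2 * var f) =
      32 * R * A.k * G ^ 2 / var f ^ 3 := by
    field_simp
    ring
  rw [e2, eG]
  congr 1
  ring

end

end Pool.Agent.H.MP_58d537_lc
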