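import Pool.Agent.H.MP_58d537_lc.A20H.Chain

/-!
# Heavy and light accesses

`acc t` is the set of the coordinates that may be heavy in round `t`; all the other coordinates
have query weight at most `δ` in round `t`, on every input.
-/

set_option autoImplicit false

open Finset
open scoped InnerProductSpace

namespace Pool.Agent.H.MP_58d537_lc

noncomputable section

variable {N : ℕ} {H : Type*} [NormedAddCommGroup H] [InnerProductSpace ℂ H]

/-- number of rounds before `t` in which `i` is heavy -/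
def hcnt (acc : ℕ → Finset (Fin N)) (t : ℕ) (i : Fin N) : ℕ :=
  ((range t).filter (fun s => i ∈ acc s)).card

/-- one plus the last round before `t` in which `i` is heavy (`0` if there is none) -/
def hrk (acc : ℕ → Finset (Fin N)) (t : ℕ) (i : Fin N) : ℕ :=
  ((range t).filter (fun s => i ∈ acc s)).sup (fun s => s + 1)

variable {acc : ℕ → Finset (Fin N)}

lemma hrk_le (t : ℕ) (i : Fin N) : hrk acc t i ≤ t := by
  unfold hrk
  apply Finset.sup_le
  intro s hs
  rw [Finset.mem_filter, Finset.mem_range] at hs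
  exact hs.1

lemma lt_hrk {t s : ℕ} {i : Fin N} (hs : s < t) (hi : i ∈ acc s) : s < hrk acc t i := by
  unfold hrk
  have : s + 1 ≤ ((range t).filter (fun s => i ∈ acc s)).sup (fun s => s + 1) :=
    Finset.le_sup (f := fun s => s + 1) (by
      rw [Finset.mem_filter, Finset.mem_range]; exact ⟨hs, hi⟩)
  exact this

lemma hcnt_mono {s t : ℕ} (h : s ≤ t) (i : Fin N) : hcnt acc s i ≤ hcnt acc t i := by
  unfold hcnt
  apply Finset.card_le_card
  intro u hu
  rw [Finset.mem_filter, Finset.mem_range] at hu ⊢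
  exact ⟨by omega, hu.2⟩

lemma hcnt_lt {s t : ℕ} {i : Fin N} (h : s < hrk acc t i) :
    hcnt acc s i + 1 ≤ hcnt acc t i := by
  set B := (range t).filter (fun s => i ∈ acc s) with hB
  have hne : B.Nonempty := by
    by_contra hcon
    rw [Finset.not_nonempty_iff_eq_empty] at hcon
    have : hrk acc t i = 0 := by
      unfold hrk
      rw [← hB, hcon]
      rfl
    omega
  obtain ⟨l, hl, hl2⟩ := Finset.exists_mem_eq_sup B hne (fun s => s + 1)
  have hl3 : hrk acc t i = l + 1 := hl2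
  have h1 : insert l ((range s).filter (fun s => i ∈ acc s)) ⊆ B := by
    intro u hu
    rw [Finset.mem_insert] at hu
    rcases hu with rfl | hu
    · exact hl
    · rw [hB, Finset.mem_filter, Finset.mem_range] at hl
      rw [Finset.mem_filter, Finset.mem_range] at hu
      rw [hB, Finset.mem_filter, Finset.mem_range]
      exact ⟨by omega, hu.2⟩
  have h2 : l ∉ (range s).filter (fun s => i ∈ acc s) := by
    rw [Finset.mem_filter, Finset.mem_range]
    intro h3
    omega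
  have h3 := Finset.card_le_card h1
  rw [Finset.card_insert_of_notMem h2] at h3
  exact h3

/-- The sum of the squared one-sided differences of a partially averaged weight, over a set `F` of
free coordinates that are heavy in at most `D` rounds, all of them before round `c`. -/
lemma QSys.sum_diff_sq_hl (A : QSys N H) (Q : H →ₗ[ℂ] H)
    (hQs : ∀ u v, ⟪Q u, v⟫_ℂ = ⟪u, Q v⟫_ℂ) (hQi : ∀ v, Q (Q v) = Q v)
    (S L : Finset (Fin N)) (a : Fin N → Bool) (t c D : ℕ)
    {δ : ℝ} (hδ0 : 0 ≤ δ)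
    (hδ : ∀ s < t, ∀ i, i ∉ acc s → ∀ x, ‖A.P i (A.st s x)‖ ^ 2 ≤ δ)
    (F : Finset (Fin N)) (hFS : ∀ i ∈ F, i ∉ S) (hFL : ∀ i ∈ F, i ∉ L)
    (hFc : ∀ i ∈ F, ∀ s < t, c ≤ s → i ∉ acc s)
    (hFD : ∀ i ∈ F, hcnt acc t i ≤ D)
    (x : Fin N → Bool) (m : ℕ → ℝ) (hm0 : ∀ s, 0 ≤ m s)
    (hm : ∀ s < c, ∀ i ∈ F,
      pav L (fun z => ‖A.P i (A.st s (ovw S a z))‖ ^ 2) (flip i x) ≤ m s) :
    ∑ i ∈ F, (max (pav L (fun z => ‖Q (A.st t (ovw S a z))‖ ^ 2) x -
        pav L (fun z => ‖Q (A.st t (ovw S a z))‖ ^ 2) (flip i x)) 0) ^ 2 ≤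
      (32 * A.k * (D * ∑ s ∈ range c, m s + t ^ 2 * δ)) *
        pav L (fun z => ‖Q (A.st t (ovw S a z))‖ ^ 2) x := by
  classical
  -- backward states, for every value of the averaged coordinates
  have hex := fun y : Fin N → Bool => A.diff_le Q hQs hQi (ovw S a (ovw L y x)) t
  choose b hb hd using hex
  -- the difference for one coordinate
  have hone : ∀ i ∈ F, pav L (fun z => ‖Q (A.st t (ovw S a z))‖ ^ 2) x -
        pav L (fun z => ‖Q (A.st t (ovw S a z))‖ ^ 2) (flip i x) ≤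
      4 * ∑ s ∈ range t, avg (fun y => ‖A.P i (b y s)‖ *
        ‖A.P i (A.st s (ovw S a (ovw L y (flip i x))))‖) := by
    intro i hi
    unfold pav
    rw [← avg_sub, ← avg_sum, ← avg_const_mul]
    apply avg_mono
    intro y
    have h1 := hd y i
    have e1 : ovw S a (ovw L y (flip i x)) = flip i (ovw S a (ovw L y x)) := by
      rw [ovw_flip (hFL i hi), ovw_flip (hFS i hi)]
    beta_reduce
    rw [e1]
    exact h1
  -- squares
  have hsq : ∀ i ∈ F, (max (pav L (fun z => ‖Q (A.st t (ovw S a z))‖ ^ 2) x -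
        pav L (fun z => ‖Q (A.st t (ovw S a z))‖ ^ 2) (flip i x)) 0) ^ 2 ≤
      32 * (D * ∑ s ∈ range c, m s * avg (fun y => ‖A.P i (b y s)‖ ^ 2) +
        t * ∑ s ∈ range t, δ * avg (fun y => ‖A.P i (b y s)‖ ^ 2)) := by
    intro i hi
    set g : ℕ → ℝ := fun s => avg (fun y => ‖A.P i (b y s)‖ *
        ‖A.P i (A.st s (ovw S a (ovw L y (flip i x))))‖) with hg
    have hg0 : ∀ s, 0 ≤ g s := fun s => avg_nonneg fun y => by positivity
    have hb0 : ∀ s, 0 ≤ avg (fun y => ‖A.P i (b y s)‖ ^ 2) := fun s =>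
      avg_nonneg fun y => by positivity
    set Th := (range t).filter (fun s => i ∈ acc s) with hTh
    set Tl := (range t).filter (fun s => ¬ i ∈ acc s) with hTl
    have h2 : max (pav L (fun z => ‖Q (A.st t (ovw S a z))‖ ^ 2) x -
        pav L (fun z => ‖Q (A.st t (ovw S a z))‖ ^ 2) (flip i x)) 0 ≤
        4 * (∑ s ∈ Th, g s + ∑ s ∈ Tl, g s) := by
      refine max_le ?_ (mul_nonneg (by norm_num) (add_nonneg
        (Finset.sum_nonneg fun s _ => hg0 s) (Finset.sum_nonneg fun s _ => hg0 s)))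
      have h := hone i hi
      rwa [← Finset.sum_filter_add_sum_filter_not (range t) (fun s => i ∈ acc s)] at h
    have h3 := pow_le_pow_left₀ (le_max_right _ _) h2 2
    have hcard : (Th.card : ℝ) ≤ D := by exact_mod_cast hFD i hi
    have hcardl : (Tl.card : ℝ) ≤ t := by
      have h' : Tl.card ≤ (range t).card := Finset.card_le_card (Finset.filter_subset _ _)
      rw [Finset.card_range] at h'
      exact_mod_cast h'
    have h4 : (∑ s ∈ Th, g s) ^ 2 ≤ Th.card * ∑ s ∈ Th, (g s) ^ 2 := sq_sum_le_card_mul_sum_sq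
    have h4' : (∑ s ∈ Tl, g s) ^ 2 ≤ Tl.card * ∑ s ∈ Tl, (g s) ^ 2 := sq_sum_le_card_mul_sum_sq
    have hgsq : ∀ s, (g s) ^ 2 ≤ avg (fun y => ‖A.P i (b y s)‖ ^ 2) *
          avg (fun y => ‖A.P i (A.st s (ovw S a (ovw L y (flip i x))))‖ ^ 2) :=
      fun s => avg_mul_sq_le _ _
    have hThc : Th ⊆ range c := by
      intro s hs
      rw [hTh, Finset.mem_filter, Finset.mem_range] at hs
      by_contra hcon
      rw [Finset.mem_range] at hcon
      exact hFc i hi s hs.1 (by omega) hs.2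
    have h5 : ∀ s ∈ Th, (g s) ^ 2 ≤ m s * avg (fun y => ‖A.P i (b y s)‖ ^ 2) := by
      intro s hs
      have h6 := hm s (Finset.mem_range.mp (hThc hs)) i hi
      refine (hgsq s).trans ?_
      rw [mul_comm]
      exact mul_le_mul_of_nonneg_right h6 (hb0 s)
    have h5' : ∀ s ∈ Tl, (g s) ^ 2 ≤ δ * avg (fun y => ‖A.P i (b y s)‖ ^ 2) := by
      intro s hs
      rw [hTl, Finset.mem_filter, Finset.mem_range] at hs
      have h6 : avg (fun y => ‖A.P i (A.st s (ovw S a (ovw L y (flip i x))))‖ ^ 2) ≤ δ := by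
        have h7 : avg (fun y => ‖A.P i (A.st s (ovw S a (ovw L y (flip i x))))‖ ^ 2) ≤
            avg (fun _ : Fin N → Bool => δ) := avg_mono fun y => hδ s hs.1 i hs.2 _
        rwa [avg_const] at h7
      refine (hgsq s).trans ?_
      rw [mul_comm]
      exact mul_le_mul_of_nonneg_right h6 (hb0 s)
    have h10 : ∑ s ∈ Th, (g s) ^ 2 ≤ ∑ s ∈ range c, m s * avg (fun y => ‖A.P i (b y s)‖ ^ 2) := by
      refine (Finset.sum_le_sum h5).trans ?_
      exact Finset.sum_le_sum_of_subset_of_nonneg hThc fun s _ _ => mul_nonneg (hm0 s) (hb0 s)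
    have h10' : ∑ s ∈ Tl, (g s) ^ 2 ≤ ∑ s ∈ range t, δ * avg (fun y => ‖A.P i (b y s)‖ ^ 2) := by
      refine (Finset.sum_le_sum h5').trans ?_
      exact Finset.sum_le_sum_of_subset_of_nonneg (Finset.filter_subset _ _)
        fun s _ _ => mul_nonneg hδ0 (hb0 s)
    have h11 : 0 ≤ ∑ s ∈ Th, (g s) ^ 2 := Finset.sum_nonneg fun s _ => by positivity
    have h11' : 0 ≤ ∑ s ∈ Tl, (g s) ^ 2 := Finset.sum_nonneg fun s _ => by positivity
    have h12 : (∑ s ∈ Th, g s) ^ 2 ≤
        D * ∑ s ∈ range c, m s * avg (fun y => ‖A.P i (b y s)‖ ^ 2) := by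
      refine h4.trans ?_
      gcongr
    have h12' : (∑ s ∈ Tl, g s) ^ 2 ≤
        t * ∑ s ∈ range t, δ * avg (fun y => ‖A.P i (b y s)‖ ^ 2) := by
      refine h4'.trans ?_
      gcongr
    refine h3.trans ?_
    nlinarith [sq_nonneg (∑ s ∈ Th, g s - ∑ s ∈ Tl, g s)]
  refine (Finset.sum_le_sum hsq).trans ?_
  set G := pav L (fun z => ‖Q (A.st t (ovw S a z))‖ ^ 2) x with hG
  have hbsum : ∀ s, ∑ i ∈ F, avg (fun y => ‖A.P i (b y s)‖ ^ 2) ≤ A.k * G := by
    intro s
    rw [← avg_sum]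
    rw [hG]
    unfold pav
    rw [← avg_const_mul]
    apply avg_mono
    intro y
    calc ∑ i ∈ F, ‖A.P i (b y s)‖ ^ 2 ≤ ∑ i, ‖A.P i (b y s)‖ ^ 2 :=
          Finset.sum_le_univ_sum_of_nonneg fun i => by positivity
      _ ≤ A.k * ‖b y s‖ ^ 2 := A.weight _
      _ = _ := by rw [hb]
  have hs1 : ∑ i ∈ F, ∑ s ∈ range c, m s * avg (fun y => ‖A.P i (b y s)‖ ^ 2) ≤
      (∑ s ∈ range c, m s) * (A.k * G) := by
    rw [Finset.sum_comm, Finset.sum_mul]
    apply Finset.sum_le_sum
    intro s _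
    rw [← Finset.mul_sum]
    exact mul_le_mul_of_nonneg_left (hbsum s) (hm0 s)
  have hs2 : ∑ i ∈ F, ∑ s ∈ range t, δ * avg (fun y => ‖A.P i (b y s)‖ ^ 2) ≤
      t * (δ * (A.k * G)) := by
    rw [Finset.sum_comm]
    have h1 : ∑ s ∈ range t, ∑ i ∈ F, δ * avg (fun y => ‖A.P i (b y s)‖ ^ 2) ≤
        ∑ _s ∈ range t, δ * (A.k * G) := by
      apply Finset.sum_le_sum
      intro s _
      rw [← Finset.mul_sum]
      exact mul_le_mul_of_nonneg_left (hbsum s) hδ0
    rwa [Finset.sum_const, Finset.card_range, nsmul_eq_mul] at h1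
  rw [← Finset.mul_sum, Finset.sum_add_distrib, ← Finset.mul_sum, ← Finset.mul_sum]
  calc _ ≤ 32 * (D * ((∑ s ∈ range c, m s) * (A.k * G)) + t * (t * (δ * (A.k * G)))) := by
        gcongr
    _ = _ := by ring

end

end Pool.Agent.H.MP_58d537_lc
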